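import Mathlib
import Pool.Agent.H.MP_35f06d_lc.A

set_option autoImplicit false

namespace Pool.Agent.Results.MP_35f06d_lc.Sacks

open Set Filter Function Cardinal Ordinal Pool.Agent.H.MP_35f06d_lc Pool.Agent.H.MP_a16b96_lc

theorem big {M : Set ℝ} (h : IsMeagre M) : ∃ f : ℝ → ℝ, Injective f ∧ ∀ x, f x ∉ M := by
  obtain ⟨G, g1, g2, g3⟩ := mem_residual.1 h
  have := g2.measurableSet.standardBorel
  let e := PolishSpace.measurableEquivOfNotCountable (α := ℝ) (β := G) not_countable fun h' =>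
    not_isMeagre_of_isOpen isOpen_univ univ_nonempty (by
      rw [← union_compl_self G]
      exact (cm h').union (show Gᶜᶜ ∈ _ from (compl_compl G).symm ▸ residual_of_dense_Gδ g2 g3))
  exact ⟨fun x => e x, Subtype.val_injective.comp e.injective, fun x => g1 (e x).2⟩

theorem result (h1 : ∃ B : Set (Set ℝ), #B ≤ ℵ₁ ∧ (∀ M ∈ B, IsMeagre M) ∧
      ∀ M, IsMeagre M → ∃ N ∈ B, M ⊆ N) (h2 : (𝔠 : Cardinal.{0}) = ℵ_ ω₁) :
    covM = ℵ₁ ∧ ℵ₁ < (𝔠 : Cardinal.{0}) ∧ (𝔠 : Cardinal.{0}) = ℵ_ ω₁ ∧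
      ∃ L : Set ℝ, #L = 𝔠 ∧ ∀ M, IsMeagre M → #(L ∩ M : Set ℝ) < 𝔠 := by
  obtain ⟨B, b1, b2, b3⟩ := h1
  refine ⟨le_antisymm ((csInf_le' ?_).trans b1) (le_csInf cov_ne ?_), c1 h2, h2, ?_⟩
  · refine ⟨B, b2, eq_univ_of_forall fun x => ?_, rfl⟩
    obtain ⟨N, n1, n2⟩ := b3 _ (cm (countable_singleton x))
    exact ⟨N, n1, n2 rfl⟩
  · rintro _ ⟨F, f1, f2, rfl⟩
    exact not_lt.1 fun h => not_isMeagre_of_isOpen isOpen_univ univ_nonempty (by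
      rw [← f2, sUnion_eq_biUnion]
      exact isMeagre_biUnion ((countable_iff_lt_aleph_one F).2 h) f1)
  have hι : #(ω₁ : Ordinal.{0}).ToType = ℵ₁ := by simp
  have : Nonempty B := (b3 _ IsMeagre.empty).elim fun N h => ⟨⟨N, h.1⟩⟩
  obtain ⟨g⟩ := (le_def _ _).1 (b1.trans hι.ge)
  have hc : ∀ i : (ω₁ : Ordinal.{0}).ToType, (Iic i).Countable := fun i =>
    (countable_iff_lt_aleph_one _).2 (hι ▸ mk_Iic_lt i (by simp) (hι ▸ aleph0_le_aleph 1))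
  choose f f1 f2 using fun i => big (isMeagre_biUnion (hc i) fun j _ => b2 _ (invFun g j).2)
  obtain ⟨A, a1, a2⟩ := bk h2 hι mk_real f f1
  refine ⟨_, le_antisymm ((mk_set_le _).trans mk_real.le) a1, fun M hM => ?_⟩
  obtain ⟨N, n1, n2⟩ := b3 M hM
  refine (mk_le_mk_of_subset ?_).trans_lt (a2 _ (hc (g ⟨N, n1⟩)))
  rintro _ ⟨h3, h4⟩
  obtain ⟨i, x, hx, rfl⟩ := mem_iUnion.1 h3
  refine mem_biUnion (mem_Iic.2 (le_of_not_ge fun h => f2 i x (mem_biUnion (mem_Iic.2 h) ?_)))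
    ⟨x, hx, rfl⟩
  rw [leftInverse_invFun g.injective]
  exact n2 h4

end Pool.Agent.Results.MP_35f06d_lc.Sacks
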